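import Pool.Agent.H564R3.CP.DP
import Pool.Agent.H564R3.CP.Interp
import Pool.Agent.H564R3.CP.Sep
import Pool.Agent.H564R3.CP.Num
import Pool.Agent.H564R3.MR.Tseitin

/-!
Assembly: length and space in cutting planes. The parts are in `Pool/Agent/H564R3/CP/`.
-/

set_option autoImplicit false

namespace Pool.Agent.H438R3.CP

open Pool.Agent.H564R3.CP Pool.Agent.H564R3.MR
open Pool.Agent.H564R3.PW (Pos pairs Arc var)

theorem card_xvar (k n m : ℕ) : Fintype.card (XVar k n m) = (k * n * m) ^ 2 + k * n * m := by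
  have e : XVar k n m ≃ Arc k n m ⊕ (Pos k n × Fin m) :=
    { toFun := fun x => match x with
        | .arc a => Sum.inl a
        | .cho v a => Sum.inr (v, a)
      invFun := fun x => match x with
        | Sum.inl a => .arc a
        | Sum.inr (v, a) => .cho v a
      left_inv := by intro x; cases x <;> rfl
      right_inv := by intro x; rcases x with x | ⟨v, a⟩ <;> rfl }
  rw [Fintype.card_congr e]
  simp only [Arc, Pos, Fintype.card_sum, Fintype.card_prod, Fintype.card_fin]
  ring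

theorem card_yvar (k n m : ℕ) (Q : Type) [Fintype Q] :
    Fintype.card (YVar k n m Q) = k * n * m * Fintype.card Q := by
  have e : YVar k n m Q ≃ (Pos k n × Fin m) × Q :=
    { toFun := fun x => match x with
        | .col v a c => ((v, a), c)
      invFun := fun x => .col x.1.1 x.1.2 x.2
      left_inv := by intro x; cases x; rfl
      right_inv := by intro x; rfl }
  rw [Fintype.card_congr e]
  simp only [Pos, Fintype.card_prod, Fintype.card_fin]

theorem card_var (k n m : ℕ) (Q : Type) [Fintype Q] : Fintype.card (Var k n m Q) =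
    (k * n * m) ^ 2 + k * n * m + k * n * m * Fintype.card Q := by
  rw [Fintype.card_sum, card_xvar, card_yvar]

/-- the number of clauses -/
theorem formula_card {k n m : ℕ} {Q : Type} [Fintype Q] [DecidableEq Q]
    (C : Pos k n × Pos k n → Q → Q → Bool) :
    {c : Clause (Var k n m Q) | Formula C c}.Finite ∧
      {c : Clause (Var k n m Q) | Formula C c}.ncard ≤
        k * n + (k * n * m) ^ 2 + k * n * m + (k * n * m * Fintype.card Q) ^ 2 := by
  classical
  let f1 : Pos k n → Clause (Var k n m Q) := fun v => Finset.univ.image fun a => (cho v a, true)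
  let f2 : (Pos k n × Fin m) × (Pos k n × Fin m) → Clause (Var k n m Q) := fun x =>
    {(cho x.1.1 x.1.2, false), (cho x.2.1 x.2.2, false), (arc ((x.1.1, x.1.2), (x.2.1, x.2.2)), true)}
  let f3 : Pos k n × Fin m → Clause (Var k n m Q) := fun x =>
    Finset.univ.image fun c => (col x.1 x.2 c, true)
  let f4 : (Pos k n × Fin m × Q) × (Pos k n × Fin m × Q) → Clause (Var k n m Q) := fun x =>
    {(arc ((x.1.1, x.1.2.1), (x.2.1, x.2.2.1)), false), (col x.1.1 x.1.2.1 x.1.2.2, false),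
      (col x.2.1 x.2.2.1 x.2.2.2, false)}
  set S : Finset (Clause (Var k n m Q)) :=
    Finset.univ.image f1 ∪ Finset.univ.image f2 ∪ Finset.univ.image f3 ∪ Finset.univ.image f4
    with hS
  have hsub : {c : Clause (Var k n m Q) | Formula C c} ⊆ (S : Set (Clause (Var k n m Q))) := by
    rintro c hc
    rw [hS]
    simp only [Finset.coe_union, Set.mem_union, Finset.coe_image, Finset.coe_univ, Set.image_univ,
      Set.mem_range]
    rcases hc with v | ⟨e, he, a, b⟩ | ⟨v, a⟩ | ⟨e, he, a, b, c, d, h⟩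
    · exact Or.inl (Or.inl (Or.inl ⟨v, rfl⟩))
    · exact Or.inl (Or.inl (Or.inr ⟨((e.1, a), (e.2, b)), rfl⟩))
    · exact Or.inl (Or.inr ⟨(v, a), rfl⟩)
    · exact Or.inr ⟨((e.1, a, c), (e.2, b, d)), rfl⟩
  refine ⟨S.finite_toSet.subset hsub, ?_⟩
  refine (Set.ncard_le_ncard hsub S.finite_toSet).trans ?_
  rw [Set.ncard_coe_finset, hS]
  refine (Finset.card_union_le _ _).trans ?_
  refine Nat.add_le_add ((Finset.card_union_le _ _).trans ?_) ?_
  · refine Nat.add_le_add ((Finset.card_union_le _ _).trans ?_) ?_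
    · refine Nat.add_le_add ?_ ?_
      · refine Finset.card_image_le.trans (le_of_eq ?_)
        simp [Pos, Fintype.card_prod]
      · refine Finset.card_image_le.trans (le_of_eq ?_)
        simp only [Finset.card_univ, Pos, Fintype.card_prod, Fintype.card_fin]
        ring
    · refine Finset.card_image_le.trans (le_of_eq ?_)
      simp only [Finset.card_univ, Pos, Fintype.card_prod, Fintype.card_fin]
  · refine Finset.card_image_le.trans (le_of_eq ?_)
    simp only [Finset.card_univ, Pos, Fintype.card_prod, Fintype.card_fin]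
    ring

/-- every linear inequality is a line -/
theorem linear_line {U W : Type} [Fintype U] [Fintype W] (a : U ⊕ W → ℝ) (b : ℝ) :
    ∃ L : Line U W, ∀ z : U ⊕ W → Bool, L.Holds z ↔ b ≤ ∑ v, a v * (if z v then 1 else 0) := by
  refine ⟨⟨fun x => ∑ u, a (Sum.inl u) * (if x u then 1 else 0) - b,
    fun y => ∑ w, a (Sum.inr w) * (if y w then 1 else 0)⟩, fun z => ?_⟩
  unfold Line.Holds
  rw [Fintype.sum_sum_type]
  constructor <;> intro h <;> simp only at h ⊢ <;> linarith

theorem main (c g : ℕ) : ∃ (k n : ℕ) (Q : Type) (_ : Fintype Q) (_ : DecidableEq Q)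
    (C : Pos k n × Pos k n → Q → Q → Bool), 1 ≤ k ∧ 1 ≤ n ∧ ∃ m₀ : ℕ, ∀ m ≥ m₀, ∀ N : ℕ,
      N = Fintype.card (Var k n m Q) →
      m ≤ N ∧
      {a : Clause (Var k n m Q) | Formula C a}.Finite ∧
      {a : Clause (Var k n m Q) | Formula C a}.ncard ≤ N ^ 3 ∧
      Der {a : Clause (Var k n m Q) | Formula C a} (N ^ (3 * c + 4)) {∅} ∧
      ∀ (ρ : Type) [Fintype ρ] [DecidableEq ρ] (p : List (Step (XVar k n m) (YVar k n m Q) ρ))
        (o : ρ), Refutes {a | Formula C a} p o → p.length ≤ N ^ g → N ^ c < Fintype.card ρ := by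
  obtain ⟨k, hk⟩ : ∃ k : ℕ, k = 3 * c + 3 := ⟨_, rfl⟩
  have hk1 : 1 ≤ k := by omega
  obtain ⟨n, hn2, hlow⟩ := lower_sep k (3 * g + 1) hk1 (by omega)
  obtain ⟨Q, iQ, dQ, C, hC⟩ := tseitin k n hk1 hn2
  obtain ⟨m₁, hm₁⟩ := hlow Q C hC
  obtain ⟨m₂, hm₂⟩ := num_cp c g n (Fintype.card Q) (by omega)
  have hQ : Nonempty Q := by
    have h1 : (pairs k n).Nonempty := by
      refine ⟨((⟨0, hk1⟩, ⟨0, by omega⟩), (⟨0, hk1⟩, ⟨1, by omega⟩)), ?_⟩
      simp [pairs]
    obtain ⟨e, he⟩ := h1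
    obtain ⟨z, _⟩ := hC.crit e he
    exact ⟨z e.1⟩
  have hQ1 : 1 ≤ Fintype.card Q := Fintype.card_pos
  refine ⟨k, n, Q, iQ, dQ, C, hk1, by omega, m₁ + m₂ + 4, fun m hm N hN => ?_⟩
  rw [card_var] at hN
  obtain ⟨a1, a2, a3⟩ := hm₂ m (by omega) N k hk hN
  obtain ⟨b1, b2⟩ := formula_card (m := m) C
  have hm1 : 1 ≤ m := by omega
  have hkn : 1 ≤ k * n := Nat.mul_pos hk1 (by omega)
  have hmle : m ≤ k * n * m := Nat.le_mul_of_pos_left m hkn
  have hkle : k * n ≤ k * n * m := Nat.le_mul_of_pos_right _ hm1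
  have hmN : m ≤ N := by
    rw [hN]
    exact hmle.trans (by nlinarith [Nat.zero_le ((k * n * m) ^ 2), Nat.zero_le (k * n * m * Fintype.card Q)])
  refine ⟨hmN, b1, ?_, ?_, ?_⟩
  · refine b2.trans ?_
    have h1 : k * n * m ≤ N := by rw [hN]; nlinarith [Nat.zero_le ((k * n * m) ^ 2), Nat.zero_le (k * n * m * Fintype.card Q)]
    have h2 : k * n * m * Fintype.card Q ≤ N := by rw [hN]; nlinarith [Nat.zero_le ((k * n * m) ^ 2), Nat.zero_le (k * n * m)]
    have h3 : 4 ≤ N := le_trans (by omega) hmN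
    have h4 : (k * n * m) ^ 2 ≤ N ^ 2 := Nat.pow_le_pow_left h1 2
    have h5 : (k * n * m * Fintype.card Q) ^ 2 ≤ N ^ 2 := Nat.pow_le_pow_left h2 2
    have h6 : N ≤ N ^ 2 := by nlinarith
    calc k * n + (k * n * m) ^ 2 + k * n * m + (k * n * m * Fintype.card Q) ^ 2
        ≤ N ^ 2 + N ^ 2 + N ^ 2 + N ^ 2 := by
          have h7 : k * n ≤ N := hkle.trans h1
          omega
      _ = 4 * N ^ 2 := by ring
      _ ≤ N * N ^ 2 := Nat.mul_le_mul_right _ h3
      _ = N ^ 3 := by ring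
  · obtain ⟨L, hL1, hL2, hL3⟩ := dp hk1 hm1 (by omega : 1 ≤ n) C hC.unsat
    exact ⟨L, hL1.trans a1, hL2, hL3⟩
  · intro ρ _ _ p o hp hT
    obtain ⟨p', hp1, hp2, hp3⟩ := interp C p o hp
    have h1 := hm₁ m (by omega) (Option ρ) p' (some o) hp1 hp2 (hp3.trans (a2 _ hT))
    rw [Fintype.card_option] at h1
    exact a3 _ h1

end Pool.Agent.H438R3.CP
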